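import Pool.Agent.H36.Cis2

open Pool.Agent.H38.NP Pool.Agent.H36.Cis

theorem Pool.Agent.Results.MP_bb030f_lc.Complete.result :
    CoNPComplete (lang fun p : ℕ × List (ℕ × ℕ) => CIS (graphOf p.1 p.2)) :=
  ⟨cis_coNP, (hard (fun _ G => CIS G) (fun _ _ _ h => h) fun _ _ h =>
    h.edgeStrong.triangle).coNPHard fun _ _ => Iff.rfl⟩
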